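import Pool.Agent.Helper40.TWM.Stmts

/-!
Row MZD of the sheet TWM (MP_7a8f48_an): the exceptional primes of a cocycle.
-/

set_option linter.unusedSectionVars false

open MeasureTheory Filter Topology Finset
open scoped ComplexConjugate

namespace Pool.Agent.Helper29.TWM

open Pool.Agent.Helper98.TW (SA AM UF BF Sys IA)
open Pool.Agent.Helper40.TWM

/-! ### the trace -/

section tr

variable {V : Type} [NormedAddCommGroup V] [InnerProductSpace ℂ V] [FiniteDimensional ℂ V]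
  [CompleteSpace V]

/-- the trace of an operator -/
noncomputable def trL : (V →L[ℂ] V) →ₗ[ℂ] ℂ :=
  (LinearMap.trace ℂ V).comp (ContinuousLinearMap.coeLM ℂ)

theorem trL_comm (X Y : V →L[ℂ] V) : trL (X * Y) = trL (Y * X) :=
  LinearMap.trace_mul_comm ℂ (X : V →ₗ[ℂ] V) (Y : V →ₗ[ℂ] V)

theorem trL_cont : Continuous (trL : (V →L[ℂ] V) → ℂ) :=
  LinearMap.continuous_of_finiteDimensional _

theorem trL_pos {X : V →L[ℂ] V} (h : trL (star X * X) = 0) : X = 0 := by
  set b := stdOrthonormalBasis ℂ V with hb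
  have h1 : trL (star X * X) = ∑ i, ((‖X (b i)‖ ^ 2 : ℝ) : ℂ) := by
    have h2 := LinearMap.trace_eq_sum_inner (𝕜 := ℂ) ((star X * X : V →L[ℂ] V) : V →ₗ[ℂ] V) b
    refine h2.trans (Finset.sum_congr rfl fun i _ => ?_)
    show (inner ℂ (b i) (star X (X (b i))) : ℂ) = _
    rw [ContinuousLinearMap.star_eq_adjoint, ContinuousLinearMap.adjoint_inner_right,
      inner_self_eq_norm_sq_to_K]
    simp
  rw [h1, ← Complex.ofReal_sum] at h
  have h3 : ∑ i, ‖X (b i)‖ ^ 2 = 0 := Complex.ofReal_eq_zero.1 h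
  have h4 := (Finset.sum_eq_zero_iff_of_nonneg (fun i _ => by positivity)).1 h3
  have h5 : ∀ i, X (b i) = 0 := fun i => by
    have := h4 i (Finset.mem_univ i)
    simpa using this
  have h6 : (X : V →ₗ[ℂ] V) = 0 := by
    refine b.toBasis.ext fun i => ?_
    simpa using h5 i
  ext v
  have := congrArg (fun L : V →ₗ[ℂ] V => L v) h6
  simpa using this

theorem trL_conj {U : V →L[ℂ] V} (hU : star U * U = 1) (X Y : V →L[ℂ] V) :
    trL (star (U * X * star U) * (U * Y * star U)) = trL (star X * Y) := by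
  have h1 : star (U * X * star U) * (U * Y * star U) = U * (star X * Y * star U) := by
    rw [star_mul, star_mul, star_star]
    calc U * (star X * star U) * (U * Y * star U)
        = U * (star X * (star U * U) * Y * star U) := by simp only [mul_assoc]
      _ = U * (star X * Y * star U) := by rw [hU, mul_one]
  rw [h1, trL_comm, mul_assoc, hU, mul_one]

theorem unit_of_iso {U : V →L[ℂ] V} (h : ∀ v, ‖U v‖ = ‖v‖) : star U * U = 1 :=
  (ContinuousLinearMap.norm_map_iff_adjoint_comp_self U).1 h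

end tr

/-! ### the action on fields of operators -/

section ad

variable {Ω : Type} [m0 : MeasurableSpace Ω] {μ : Measure Ω} [IsProbabilityMeasure μ]
  {V : Type} [NormedAddCommGroup V] [InnerProductSpace ℂ V] [FiniteDimensional ℂ V]
  [CompleteSpace V] {S S' : Ω → Ω} {θ : Ω → V →L[ℂ] V}

/-- `Θ ↦ θ (Θ ∘ S) θ*` -/
noncomputable def Ad (S : Ω → Ω) (θ : Ω → V →L[ℂ] V) (Θ : Ω → V →L[ℂ] V) (x : Ω) : V →L[ℂ] V :=
  θ x * Θ (S x) * star (θ x)

theorem Ad_iter (Θ : Ω → V →L[ℂ] V) (n : ℕ) (x : Ω) :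
    (Ad S θ)^[n] Θ x = tp S θ n x * Θ (S^[n] x) * star (tp S θ n x) := by
  induction n generalizing x with
  | zero => simp [tp]
  | succ n ih =>
    rw [Function.iterate_succ_apply']
    show θ x * (Ad S θ)^[n] Θ (S x) * star (θ x) = _
    rw [ih, tp, star_mul, Function.iterate_succ_apply]
    simp only [mul_assoc]

theorem Ad_congr (hS : MeasurePreserving S μ μ) {Θ Θ' : Ω → V →L[ℂ] V} (h : Θ =ᵐ[μ] Θ') :
    Ad S θ Θ =ᵐ[μ] Ad S θ Θ' := by
  filter_upwards [hS.quasiMeasurePreserving.ae h] with x hx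
  unfold Ad
  rw [hx]

theorem Ad_meas (hS : MeasurePreserving S μ μ) (hθ : Th μ θ) {Θ : Ω → V →L[ℂ] V}
    (h : AEStronglyMeasurable Θ μ) : AEStronglyMeasurable (Ad S θ Θ) μ := by
  have h1 : AEStronglyMeasurable (fun x => Θ (S x)) μ := h.comp_measurePreserving hS
  exact (hθ.ms.mul h1).mul hθ.ms.star

theorem norm_th (hθ : Th μ θ) (x : Ω) : ‖θ x‖ ≤ 1 :=
  ContinuousLinearMap.opNorm_le_bound _ zero_le_one fun v => by rw [hθ.iso, one_mul]

theorem Ad_bdd (hS : MeasurePreserving S μ μ) (hθ : Th μ θ) {Θ : Ω → V →L[ℂ] V} {B : ℝ}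
    (h : ∀ᵐ x ∂μ, ‖Θ x‖ ≤ B) : ∀ᵐ x ∂μ, ‖Ad S θ Θ x‖ ≤ B := by
  filter_upwards [hS.quasiMeasurePreserving.ae h] with x hx
  have h1 := norm_th hθ x
  have h2 : ‖star (θ x)‖ ≤ 1 := by rw [norm_star]; exact h1
  have hx' : ‖Θ (S x)‖ ≤ B := hx
  have hB : 0 ≤ B := (norm_nonneg _).trans hx'
  unfold Ad
  calc ‖θ x * Θ (S x) * star (θ x)‖ ≤ ‖θ x * Θ (S x)‖ * ‖star (θ x)‖ := norm_mul_le _ _
    _ ≤ (‖θ x‖ * ‖Θ (S x)‖) * ‖star (θ x)‖ := by gcongr; exact norm_mul_le _ _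
    _ ≤ (1 * B) * 1 := by gcongr
    _ = B := by ring

/-- eigenfields -/
def EF (μ : Measure Ω) (S : Ω → Ω) (θ : Ω → V →L[ℂ] V) (z : ℂ) (Θ : Ω → V →L[ℂ] V) : Prop :=
  AEStronglyMeasurable Θ μ ∧ ¬ (Θ =ᵐ[μ] 0) ∧ ∀ᵐ x ∂μ, Ad S θ Θ x = z • Θ x

theorem ef_trace (hθ : Th μ θ) {z w : ℂ} {Θ Θ' : Ω → V →L[ℂ] V} (h : EF μ S θ z Θ)
    (h' : EF μ S θ w Θ') : ∀ᵐ x ∂μ, trL (star (Θ (S x)) * Θ' (S x)) =
      (conj z * w) * trL (star (Θ x) * Θ' x) := by
  filter_upwards [h.2.2, h'.2.2] with x h1 h2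
  have hU := unit_of_iso (hθ.iso x)
  rw [← trL_conj hU]
  unfold Ad at h1 h2
  rw [h1, h2, star_smul, smul_mul_smul_comm, map_smul]
  rfl

theorem tr_meas {Θ Θ' : Ω → V →L[ℂ] V} (h : AEStronglyMeasurable Θ μ)
    (h' : AEStronglyMeasurable Θ' μ) :
    AEStronglyMeasurable (fun x => trL (star (Θ x) * Θ' x)) μ :=
  trL_cont.comp_aestronglyMeasurable (h.star.mul h')

/-- two different eigenvalues -/
theorem ef_orth (hSt : St μ S S') (hθ : Th μ θ) {z w : ℂ} {n : ℕ} (hn : 1 ≤ n)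
    (hzn : (conj z * w) ^ n = 1) (hz1 : conj z * w ≠ 1) {Θ Θ' : Ω → V →L[ℂ] V}
    (h : EF μ S θ z Θ) (h' : EF μ S θ w Θ') : ∀ᵐ x ∂μ, trL (star (Θ x) * Θ' x) = 0 := by
  set g : Ω → ℂ := fun x => trL (star (Θ x) * Θ' x) with hg
  have hgm : AEStronglyMeasurable g μ := tr_meas h.1 h'.1
  have hS1 : MeasurePreserving S μ μ := by simpa using (hSt.sys 1).mp
  have h1 : ∀ᵐ x ∂μ, g (S x) = (conj z * w) * g x := ef_trace hθ h h'
  have h2 : ∀ m : ℕ, ∀ᵐ x ∂μ, g (S^[m] x) = (conj z * w) ^ m * g x := by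
    intro m
    induction m with
    | zero => simp
    | succ m ih =>
      filter_upwards [ih, (hSt.sys m).mp.quasiMeasurePreserving.ae h1] with x hx1 hx2
      rw [Function.iterate_succ_apply', hx2, hx1]
      ring
  have h3 : g ∘ S^[n] =ᵐ[μ] g := by
    filter_upwards [h2 n] with x hx
    rw [Function.comp_apply, hx, hzn, one_mul]
  obtain ⟨c, hc⟩ := (hSt.erg n hn).ae_eq_const_of_ae_eq_comp_ae hgm h3
  have hc' : ∀ᵐ x ∂μ, g x = c := hc
  have h4 : ∀ᵐ x ∂μ, c = (conj z * w) * c := by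
    filter_upwards [h1, hc', hS1.quasiMeasurePreserving.ae hc'] with x h1 h2 h3
    rw [h3, h2] at h1
    exact h1
  have hne : (ae μ).NeBot := inferInstance
  obtain ⟨x, hx⟩ := h4.exists
  have h5 : (1 - conj z * w) * c = 0 := by linear_combination hx
  have h6 : c = 0 := by
    rcases mul_eq_zero.1 h5 with h | h
    · exact (hz1 (sub_eq_zero.1 h).symm).elim
    · exact h
  filter_upwards [hc'] with x hx
  have : g x = 0 := by rw [hx, h6]
  exact this

/-- the norm of an eigenfield -/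
theorem ef_norm (hSt : St μ S S') (hθ : Th μ θ) {z : ℂ} (hz : conj z * z = 1)
    {Θ : Ω → V →L[ℂ] V} (h : EF μ S θ z Θ) :
    ∃ c : ℂ, c ≠ 0 ∧ ∀ᵐ x ∂μ, trL (star (Θ x) * Θ x) = c := by
  set g : Ω → ℂ := fun x => trL (star (Θ x) * Θ x) with hg
  have hgm : AEStronglyMeasurable g μ := tr_meas h.1 h.1
  have h1 : ∀ᵐ x ∂μ, g (S x) = (conj z * z) * g x := ef_trace hθ h h
  have h3 : g ∘ S =ᵐ[μ] g := by
    filter_upwards [h1] with x hx
    rw [Function.comp_apply, hx, hz, one_mul]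
  have hE : Ergodic S μ := by simpa using hSt.erg 1 le_rfl
  obtain ⟨c, hc⟩ := hE.ae_eq_const_of_ae_eq_comp_ae hgm h3
  refine ⟨c, ?_, hc⟩
  rintro rfl
  refine h.2.1 ?_
  filter_upwards [hc] with x hx
  exact trL_pos hx

/-- the set of the exceptional eigenvalues is finite -/
theorem ef_finite (hSt : St μ S S') (hθ : Th μ θ) :
    {z : ℂ | (∃ n : ℕ, 1 ≤ n ∧ z ^ n = 1) ∧ ∃ Θ : Ω → V →L[ℂ] V, EF μ S θ z Θ}.Finite := by
  classical
  by_contra hinf
  have hinf' : {z : ℂ | (∃ n : ℕ, 1 ≤ n ∧ z ^ n = 1) ∧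
      ∃ Θ : Ω → V →L[ℂ] V, EF μ S θ z Θ}.Infinite := hinf
  obtain ⟨F, hF, hcard⟩ := hinf'.exists_subset_card_eq (Module.finrank ℂ (V →L[ℂ] V) + 1)
  have hmem : ∀ z : F, (∃ n : ℕ, 1 ≤ n ∧ (z : ℂ) ^ n = 1) ∧
      ∃ Θ : Ω → V →L[ℂ] V, EF μ S θ z Θ := fun z => hF z.2
  choose hn hΘ using hmem
  choose n hn1 hzn using hn
  choose Θ hΘ using hΘ
  have hnorm : ∀ z : F, ‖(z : ℂ)‖ = 1 := fun z =>
    Complex.norm_eq_one_of_pow_eq_one (hzn z) (by have := hn1 z; omega)
  have hcz : ∀ z : F, conj (z : ℂ) * z = 1 := by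
    intro z
    rw [mul_comm, Complex.mul_conj, Complex.normSq_eq_norm_sq, hnorm]
    simp
  choose c hc0 hc using fun z : F => ef_norm hSt hθ (hcz z) (hΘ z)
  have horth : ∀ z w : F, z ≠ w → ∀ᵐ x ∂μ, trL (star (Θ z x) * Θ w x) = 0 := by
    intro z w hzw
    refine ef_orth hSt hθ (n := n z * n w) (Nat.one_le_iff_ne_zero.2
      (Nat.mul_ne_zero (by have := hn1 z; omega) (by have := hn1 w; omega))) ?_ ?_ (hΘ z) (hΘ w)
    · rw [mul_pow, ← map_pow, pow_mul, hzn, one_pow, map_one, one_mul, mul_comm (n z), pow_mul,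
        hzn, one_pow]
    · intro h
      apply hzw
      apply Subtype.ext
      have h1 := hcz z
      have h2 : (z : ℂ) * (conj (z : ℂ) * w) = z := by rw [h, mul_one]
      have h3 : (z : ℂ) * (conj (z : ℂ) * w) = w := by
        rw [← mul_assoc, mul_comm (z : ℂ), h1, one_mul]
      rw [← h2, h3]
  have hall : ∀ᵐ x ∂μ, (∀ z w : F, z ≠ w → trL (star (Θ z x) * Θ w x) = 0) ∧
      ∀ z : F, trL (star (Θ z x) * Θ z x) = c z := by
    refine Filter.Eventually.and ?_ (ae_all_iff.2 hc)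
    refine ae_all_iff.2 fun z => ae_all_iff.2 fun w => ?_
    by_cases h : z = w
    · exact Eventually.of_forall fun x h' => (h' h).elim
    · filter_upwards [horth z w h] with x hx _
      exact hx
  have hne : (ae μ).NeBot := inferInstance
  obtain ⟨x, hx1, hx2⟩ := hall.exists
  have hli : LinearIndependent ℂ (fun z : F => Θ z x) := by
    rw [Fintype.linearIndependent_iff]
    intro g hg w
    have h1 : trL (star (Θ w x) * ∑ z : F, g z • Θ z x) = g w * c w := by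
      rw [Finset.mul_sum, map_sum, Finset.sum_eq_single w]
      · rw [mul_smul_comm, map_smul, hx2 w]
        rfl
      · intro z _ hz
        rw [mul_smul_comm, map_smul, hx1 w z hz.symm, smul_zero]
      · intro h
        exact (h (Finset.mem_univ w)).elim
    rw [hg, mul_zero, map_zero] at h1
    rcases mul_eq_zero.1 h1.symm with h | h
    · exact h
    · exact (hc0 w h).elim
  have h1 := hli.fintype_card_le_finrank
  rw [Fintype.card_coe, hcard] at h1
  omega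

end ad

/-- Row MZD. -/
theorem st_MZD : ST_MZD := by
  classical
  intro Ω m0 μ hμ V _ _ _ _ S S' θ hSt hθ
  have hS1 : MeasurePreserving S μ μ := by simpa using (hSt.sys 1).mp
  set Z : Set ℂ := {z : ℂ | (∃ n : ℕ, 1 ≤ n ∧ z ^ n = 1) ∧
    ∃ Θ : Ω → V →L[ℂ] V, EF μ S θ z Θ} with hZ
  have hZf : Z.Finite := ef_finite hSt hθ
  have hch : ∀ z : ℂ, ∃ n : ℕ, z ∈ Z → 1 ≤ n ∧ z ^ n = 1 := by
    intro z
    by_cases h : z ∈ Z
    · obtain ⟨n, hn⟩ := h.1
      exact ⟨n, fun _ => hn⟩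
    · exact ⟨0, fun h' => (h h').elim⟩
  choose n hn using hch
  refine ⟨∑ z ∈ hZf.toFinset, n z + 1, ?_⟩
  intro p hp0 hp Θ hΘm ⟨B, hΘB⟩ hΘ
  have hpz : ∀ z : ℂ, z ^ p = 1 → z ≠ 1 → z ∉ Z := by
    intro z hzp hz1 hzZ
    obtain ⟨hn1, hzn⟩ := hn z hzZ
    have hle : n z ≤ ∑ z ∈ hZf.toFinset, n z :=
      Finset.single_le_sum (f := n) (fun i _ => Nat.zero_le _) (hZf.mem_toFinset.2 hzZ)
    have hlt : n z < p := by omega
    have hcop : Nat.Coprime p (n z) :=
      Nat.coprime_of_lt_prime (by omega) hlt hp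
    have hord1 : orderOf z ∣ p := orderOf_dvd_of_pow_eq_one hzp
    have hord2 : orderOf z ∣ n z := orderOf_dvd_of_pow_eq_one hzn
    have : orderOf z ∣ 1 := by
      rw [← hcop]
      exact Nat.dvd_gcd hord1 hord2
    exact hz1 (orderOf_eq_one_iff.1 (Nat.dvd_one.1 this))
  -- the iterates
  let G : ℕ → Ω → V →L[ℂ] V := fun j => (Ad S θ)^[j] Θ
  have hG0 : G 0 = Θ := rfl
  have hGs : ∀ j, G (j + 1) = Ad S θ (G j) := fun j => Function.iterate_succ_apply' _ _ _
  have hGp : ∀ᵐ x ∂μ, G p x = Θ x := by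
    filter_upwards [hΘ] with x hx
    show (Ad S θ)^[p] Θ x = Θ x
    rw [Ad_iter]
    exact hx
  have hGm : ∀ j, AEStronglyMeasurable (G j) μ := by
    intro j
    induction j with
    | zero => exact hΘm
    | succ j ih => rw [hGs]; exact Ad_meas hS1 hθ ih
  -- Fourier components
  set ζ : ℂ := Complex.exp (2 * Real.pi * Complex.I / p) with hζ
  have hζp : IsPrimitiveRoot ζ p := Complex.isPrimitiveRoot_exp p hp.ne_zero
  have hcinv : IsPrimitiveRoot ζ⁻¹ p := hζp.inv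
  set c : ℂ := ζ⁻¹ with hc
  let Tk : ℕ → Ω → V →L[ℂ] V := fun k x => ∑ j ∈ range p, ((c ^ k) ^ j) • G j x
  have hTm : ∀ k, AEStronglyMeasurable (Tk k) μ := by
    intro k
    have : AEStronglyMeasurable (∑ j ∈ range p, fun x => ((c ^ k) ^ j) • G j x) μ :=
      Finset.aestronglyMeasurable_sum _ fun j _ => (hGm j).const_smul ((c ^ k) ^ j)
    refine this.congr (Eventually.of_forall fun x => ?_)
    simp [Tk, Finset.sum_apply]
  have hAdT : ∀ k, ∀ᵐ x ∂μ, c ^ k • Ad S θ (Tk k) x = Tk k x := by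
    intro k
    filter_upwards [hGp] with x hx
    have h1 : Ad S θ (Tk k) x = ∑ j ∈ range p, ((c ^ k) ^ j) • G (j + 1) x := by
      show θ x * (∑ j ∈ range p, ((c ^ k) ^ j) • G j (S x)) * star (θ x) = _
      rw [Finset.mul_sum, Finset.sum_mul]
      refine Finset.sum_congr rfl fun j _ => ?_
      rw [mul_smul_comm, smul_mul_assoc, hGs]
      rfl
    rw [h1, Finset.smul_sum]
    have h2 : ∀ j ∈ range p, c ^ k • ((c ^ k) ^ j) • G (j + 1) x =
        ((c ^ k) ^ (j + 1)) • G (j + 1) x := by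
      intro j _
      rw [smul_smul, pow_succ, mul_comm]
    rw [Finset.sum_congr rfl h2]
    have h3 := Finset.sum_range_succ (fun j => ((c ^ k) ^ j) • G j x) p
    have h4 := Finset.sum_range_succ' (fun j => ((c ^ k) ^ j) • G j x) p
    have h5 : (c ^ k) ^ p = 1 := by
      rw [← pow_mul, mul_comm, pow_mul, hcinv.pow_eq_one, one_pow]
    rw [h3, h5, hx] at h4
    simp only [pow_zero, one_smul, hG0] at h4
    exact (add_right_cancel h4).symm
  have hT0 : ∀ k, 0 < k → k < p → Tk k =ᵐ[μ] 0 := by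
    intro k hk0 hkp
    by_contra hne
    have hck : c ^ k ≠ 1 := fun h => by
      have := hcinv.dvd_of_pow_eq_one k h
      exact absurd (Nat.le_of_dvd hk0 this) (by omega)
    have hck0 : c ^ k ≠ 0 := pow_ne_zero _ (hcinv.ne_zero hp.ne_zero)
    have hzp : ((c ^ k)⁻¹) ^ p = 1 := by
      rw [inv_pow, ← pow_mul, mul_comm, pow_mul, hcinv.pow_eq_one, one_pow, inv_one]
    refine hpz ((c ^ k)⁻¹) hzp (fun h => hck (inv_eq_one.1 h)) ⟨⟨p, hp.one_le, hzp⟩, Tk k,
      hTm k, hne, ?_⟩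
    filter_upwards [hAdT k] with x hx
    rw [← hx, smul_smul, inv_mul_cancel₀ hck0, one_smul]
  have hsum : ∀ x, ∑ k ∈ range p, Tk k x = (p : ℂ) • Θ x := by
    intro x
    simp only [Tk]
    rw [Finset.sum_comm]
    have h1 : ∀ j ∈ range p, ∑ k ∈ range p, ((c ^ k) ^ j) • G j x =
        if j = 0 then (p : ℂ) • Θ x else 0 := by
      intro j hj
      by_cases h0 : j = 0
      · subst h0
        simp only [pow_zero, one_smul, Finset.sum_const, Finset.card_range, if_true, hG0]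
        exact (Nat.cast_smul_eq_nsmul ℂ p (Θ x)).symm
      · rw [if_neg h0, ← Finset.sum_smul]
        have h2 : ∀ k ∈ range p, (c ^ k) ^ j = (c ^ j) ^ k := by
          intro k _
          rw [← pow_mul, ← pow_mul, mul_comm]
        rw [Finset.sum_congr rfl h2]
        have hcj : c ^ j ≠ 1 := fun h => by
          have := hcinv.dvd_of_pow_eq_one j h
          exact absurd (Nat.le_of_dvd (Nat.pos_of_ne_zero h0) this)
            (by have := Finset.mem_range.1 hj; omega)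
        rw [geom_sum_eq hcj]
        have h5 : (c ^ j) ^ p = 1 := by
          rw [← pow_mul, mul_comm, pow_mul, hcinv.pow_eq_one, one_pow]
        rw [h5, sub_self, zero_div, zero_smul]
    rw [Finset.sum_congr rfl h1, Finset.sum_ite_eq' (range p) 0 (fun _ => (p : ℂ) • Θ x),
      if_pos (Finset.mem_range.2 hp.pos)]
  have hT00 : ∀ᵐ x ∂μ, Tk 0 x = (p : ℂ) • Θ x := by
    have h1 : ∀ᵐ x ∂μ, ∀ k : ℕ, 0 < k → k < p → Tk k x = 0 := by
      refine ae_all_iff.2 fun k => ?_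
      by_cases h : 0 < k ∧ k < p
      · filter_upwards [hT0 k h.1 h.2] with x hx _ _
        exact hx
      · exact Eventually.of_forall fun x h1 h2 => (h ⟨h1, h2⟩).elim
    filter_upwards [h1] with x hx
    rw [← hsum x, Finset.sum_eq_single_of_mem 0 (Finset.mem_range.2 hp.pos)]
    intro k hk hk0
    exact hx k (Nat.pos_of_ne_zero hk0) (Finset.mem_range.1 hk)
  have hpne : (p : ℂ) ≠ 0 := by exact_mod_cast hp.ne_zero
  filter_upwards [hT00, hS1.quasiMeasurePreserving.ae hT00, hAdT 0] with x h1 h2 h3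
  have h4 : Ad S θ (Tk 0) x = (p : ℂ) • Ad S θ Θ x := by
    unfold Ad
    rw [h2, mul_smul_comm, smul_mul_assoc]
  rw [pow_zero, one_smul, h4, h1] at h3
  exact smul_right_injective _ hpne h3

end Pool.Agent.Helper29.TWM
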